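import Pool.Agent.Helper70.KN.Goals

/-!
PROJECT KN (MP_20ee5e_ag): packet FB, the other order of Fubini, cylinder form.
-/

set_option autoImplicit false

open MeasureTheory Set Function

namespace Pool.Agent.Helper72.KN.FB

open Pool.Agent.Helper70.KN

theorem t : S_FB := by
  intro N S i hS
  have hf : Measurable (S.indicator (1 : (Fin N → ℝ) → ENNReal)) := measurable_one.indicator hS
  have hA : MeasurableSet {x : Fin N → ℝ | 0 ≤ x i ∧ x i < 1} :=
    (measurableSet_le measurable_const (measurable_pi_apply i)).inter
      (measurableSet_lt (measurable_pi_apply i) measurable_const)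
  have hg : ∀ x : Fin N → ℝ, volume {t : ℝ | update x i t ∈ S} =
      ∫⁻ t : ℝ, S.indicator (1 : (Fin N → ℝ) → ENNReal) (update x i t) := by
    intro x
    have hm : MeasurableSet {t : ℝ | update x i t ∈ S} := (measurable_update x) hS
    rw [← lintegral_indicator_one hm]
    rfl
  have hgm : Measurable fun x : Fin N → ℝ => volume {t : ℝ | update x i t ∈ S} := by
    simp only [hg]
    have h1 := hf.lmarginal (μ := fun _ : Fin N => (volume : Measure ℝ)) (s := {i})
    rw [lmarginal_singleton] at h1
    exact h1
  rw [← lintegral_indicator_one hS, ← lintegral_indicator hA]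
  rw [volume_pi]
  rw [lintegral_eq_lmarginal_univ (0 : Fin N → ℝ), lintegral_eq_lmarginal_univ (0 : Fin N → ℝ),
    lmarginal_erase' _ hf (Finset.mem_univ i), lmarginal_erase' _ (hgm.indicator hA)
      (Finset.mem_univ i)]
  congr 1
  funext x
  rw [← hg x]
  have h2 : ∀ t : ℝ, ({x : Fin N → ℝ | 0 ≤ x i ∧ x i < 1}.indicator
      (fun x => volume {t : ℝ | update x i t ∈ S})) (update x i t) =
      (Ico (0 : ℝ) 1).indicator (fun _ => volume {t : ℝ | update x i t ∈ S}) t := by
    intro t
    by_cases ht : t ∈ Ico (0 : ℝ) 1
    · rw [indicator_of_mem ht, indicator_of_mem (by simpa using ht)]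
      simp only [update_idem]
    · rw [indicator_of_notMem ht, indicator_of_notMem (by simpa using ht)]
  simp only [h2]
  rw [lintegral_indicator measurableSet_Ico, lintegral_const, Measure.restrict_apply_univ,
    Real.volume_Ico, sub_zero, ENNReal.ofReal_one, mul_one]

end Pool.Agent.Helper72.KN.FB
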